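import Mathlib

/-!
Two counting lemmas used for `MP_7874c9_co`:
* a maximal family of coordinatewise disjoint 4-tuples is large;
* a random colouring makes one member of every large disjoint family monochromatic.
-/

namespace Pool.Agent.R866.SatC6

open Finset

/-- 4-tuples that differ in every coordinate. -/
def Dj {E : Type*} (x y : Fin 4 → E) : Prop := ∀ l, x l ≠ y l

theorem exists_disjoint_family {E : Type*} [DecidableEq E] (X : Finset (Fin 4 → E)) (K : ℕ)
    (hK : ∀ (l : Fin 4) (z : E), (X.filter (fun x => x l = z)).card ≤ K) :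
    ∃ Y ⊆ X, (∀ x ∈ Y, ∀ y ∈ Y, x ≠ y → Dj x y) ∧ X.card ≤ 4 * K * Y.card := by
  classical
  -- choose `Y` of maximal cardinality
  let 𝒴 : Finset (Finset (Fin 4 → E)) :=
    X.powerset.filter (fun Y => ∀ x ∈ Y, ∀ y ∈ Y, x ≠ y → Dj x y)
  have hne : 𝒴.Nonempty := ⟨∅, by simp [𝒴]⟩
  obtain ⟨Y, hY, hmax⟩ := Finset.exists_max_image 𝒴 Finset.card hne
  have hY' := Finset.mem_filter.mp hY
  have hYX : Y ⊆ X := Finset.mem_powerset.mp hY'.1
  refine ⟨Y, hYX, hY'.2, ?_⟩
  have hcover : X ⊆ (Y ×ˢ (Finset.univ : Finset (Fin 4))).biUnion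
      (fun yl => X.filter (fun x => x yl.2 = yl.1 yl.2)) := by
    intro x hx
    by_contra hcon
    have hall : ∀ y ∈ Y, Dj x y := by
      intro y hy l hl
      apply hcon
      rw [Finset.mem_biUnion]
      exact ⟨(y, l), by simp [hy], by simp [hx, hl]⟩
    have hxY : x ∉ Y := fun h => hall x h 0 rfl
    have hins : insert x Y ∈ 𝒴 := by
      refine Finset.mem_filter.mpr ⟨?_, ?_⟩
      · rw [Finset.mem_powerset]
        intro z hz
        rcases Finset.mem_insert.mp hz with rfl | hz
        · exact hx
        · exact hYX hz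
      · intro a ha b hb hab
        rcases Finset.mem_insert.mp ha with ha' | ha'
        · rcases Finset.mem_insert.mp hb with hb' | hb'
          · exact absurd (ha'.trans hb'.symm) hab
          · rw [ha']; exact hall b hb'
        · rcases Finset.mem_insert.mp hb with hb' | hb'
          · rw [hb']
            intro l hl
            exact hall a ha' l hl.symm
          · exact hY'.2 a ha' b hb' hab
    have := hmax _ hins
    rw [Finset.card_insert_of_notMem hxY] at this
    omega
  calc X.card ≤ _ := Finset.card_le_card hcover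
    _ ≤ ∑ yl ∈ Y ×ˢ (Finset.univ : Finset (Fin 4)),
          (X.filter (fun x => x yl.2 = yl.1 yl.2)).card := Finset.card_biUnion_le
    _ ≤ ∑ _yl ∈ Y ×ˢ (Finset.univ : Finset (Fin 4)), K := Finset.sum_le_sum fun yl _ => hK _ _
    _ = 4 * K * Y.card := by
        rw [Finset.sum_const, Finset.card_product, Finset.card_univ, Fintype.card_fin,
          smul_eq_mul]
        ring

/-- The colourings for which no tuple of `Y` is monochromatic in colour `k`. -/
def avoid {E : Type*} [Fintype E] [DecidableEq E] {M : ℕ} (Y : Finset (Fin 4 → E)) (k : Fin M) :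
    Finset (Fin 4 → E → Fin M) :=
  Finset.univ.filter (fun c => ∀ y ∈ Y, ¬ ∀ l, c l (y l) = k)

theorem card_avoid {E : Type*} [Fintype E] [DecidableEq E] {M : ℕ} (k : Fin M)
    (Y : Finset (Fin 4 → E)) (hY : ∀ x ∈ Y, ∀ y ∈ Y, x ≠ y → Dj x y) :
    (avoid Y k).card * (M ^ 4) ^ Y.card
      = (M ^ 4 - 1) ^ Y.card * Fintype.card (Fin 4 → E → Fin M) := by
  classical
  induction Y using Finset.induction_on with
  | empty => simp [avoid]
  | insert x Y hx ih =>
    have hY1 : ∀ a ∈ Y, ∀ b ∈ Y, a ≠ b → Dj a b := fun a ha b hb hab =>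
      hY a (Finset.mem_insert_of_mem ha) b (Finset.mem_insert_of_mem hb) hab
    have hxY : ∀ y ∈ Y, Dj x y := fun y hy =>
      hY x (Finset.mem_insert_self _ _) y (Finset.mem_insert_of_mem hy) (by
        rintro rfl; exact hx hy)
    have ih' := ih hY1
    -- split `avoid Y k`
    let B : Finset (Fin 4 → E → Fin M) := (avoid Y k).filter (fun c => ∀ l, c l (x l) = k)
    have hsplit : (avoid (insert x Y) k).card + B.card = (avoid Y k).card := by
      have h1 : avoid (insert x Y) k = (avoid Y k).filter (fun c => ¬ ∀ l, c l (x l) = k) := by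
        ext c
        simp only [avoid, Finset.mem_filter, Finset.mem_univ, true_and, Finset.mem_insert]
        constructor
        · intro h
          exact ⟨fun y hy => h y (Or.inr hy), h x (Or.inl rfl)⟩
        · rintro ⟨h1, h2⟩ y (rfl | hy)
          · exact h2
          · exact h1 y hy
      rw [h1, add_comm]
      exact Finset.card_filter_add_card_filter_not (s := avoid Y k) (fun c => ∀ l, c l (x l) = k)
    have hB : (avoid Y k).card = B.card * M ^ 4 := by
      have hc : (B ×ˢ (Finset.univ : Finset (Fin 4 → Fin M))).card = B.card * M ^ 4 := by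
        rw [Finset.card_product]; simp
      rw [← hc]
      refine Finset.card_bij' (fun c _ => ((fun l => Function.update (c l) (x l) k),
          fun l => c l (x l)))
        (fun p _ => fun l => Function.update (p.1 l) (x l) (p.2 l)) ?_ ?_ ?_ ?_
      · intro c hc
        simp only [Finset.mem_product, Finset.mem_univ, and_true, B, Finset.mem_filter, avoid,
          true_and] at hc ⊢
        refine ⟨?_, fun l => by simp⟩
        intro y hy hall
        apply hc y hy
        intro l
        have := hall l
        rwa [Function.update_of_ne (hxY y hy l).symm] at this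
      · intro p hp
        simp only [Finset.mem_product, Finset.mem_univ, and_true, B, Finset.mem_filter, avoid,
          true_and] at hp ⊢
        intro y hy hall
        apply hp.1 y hy
        intro l
        have := hall l
        rwa [Function.update_of_ne (hxY y hy l).symm] at this
      · intro c hc
        funext l
        simp
      · intro p hp
        simp only [Finset.mem_product, Finset.mem_univ, and_true, B, Finset.mem_filter] at hp
        ext1
        · funext l
          simp only [Function.update_idem]
          rw [← hp.2 l, Function.update_eq_self]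
        · funext l
          simp
    rw [Finset.card_insert_of_notMem hx, pow_succ, pow_succ]
    have hM : 1 ≤ M ^ 4 := Nat.one_le_pow _ _ (by have := k.2; omega)
    have key : (avoid (insert x Y) k).card * M ^ 4 = (avoid Y k).card * (M ^ 4 - 1) := by
      obtain ⟨N, hN⟩ : ∃ N, M ^ 4 = N + 1 := ⟨M ^ 4 - 1, by omega⟩
      rw [hN] at hB ⊢
      simp only [Nat.add_sub_cancel]
      have : (avoid (insert x Y) k).card = B.card * N := by
        have h2 : (avoid (insert x Y) k).card + B.card = B.card * N + B.card := by
          rw [hsplit, hB]; ring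
        omega
      rw [this, hB]; ring
    calc (avoid (insert x Y) k).card * ((M ^ 4) ^ Y.card * M ^ 4)
        = ((avoid (insert x Y) k).card * M ^ 4) * (M ^ 4) ^ Y.card := by ring
      _ = ((avoid Y k).card * (M ^ 4) ^ Y.card) * (M ^ 4 - 1) := by rw [key]; ring
      _ = _ := by rw [ih']; ring

/-- Union bound: if every test has a disjoint family of at least `T` tuples and `T` is large
compared with the number of tests, some colouring makes, for every test and every colour, a
tuple of the family monochromatic in that colour. -/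
theorem exists_coloring {E J : Type*} [Fintype E] [DecidableEq E] [Fintype J] {M : ℕ} (hM : 0 < M)
    (T : ℕ) (Y : J → Finset (Fin 4 → E)) (hY : ∀ j, ∀ x ∈ Y j, ∀ y ∈ Y j, x ≠ y → Dj x y)
    (hT : ∀ j, T ≤ (Y j).card)
    (hlt : Fintype.card J * M * (M ^ 4 - 1) ^ T < (M ^ 4) ^ T) :
    ∃ c : Fin 4 → E → Fin M, ∀ j k, ∃ y ∈ Y j, ∀ l, c l (y l) = k := by
  classical
  by_contra hcon
  push Not at hcon
  -- restrict to subfamilies of size exactly `T`
  have hZ : ∀ j, ∃ Z ⊆ Y j, Z.card = T := fun j => Finset.exists_subset_card_eq (hT j)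
  choose Z hZY hZT using hZ
  have hcov : (Finset.univ : Finset (Fin 4 → E → Fin M)) ⊆
      (Finset.univ : Finset (J × Fin M)).biUnion (fun jk => avoid (Z jk.1) jk.2) := by
    intro c _
    obtain ⟨j, k, hjk⟩ := hcon c
    rw [Finset.mem_biUnion]
    refine ⟨(j, k), Finset.mem_univ _, ?_⟩
    simp only [avoid, Finset.mem_filter, Finset.mem_univ, true_and]
    intro y hy hall
    obtain ⟨l, hl⟩ := hjk y (hZY j hy)
    exact hl (hall l)
  have h1 : Fintype.card (Fin 4 → E → Fin M) ≤
      ∑ jk : J × Fin M, (avoid (Z jk.1) jk.2).card := by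
    calc Fintype.card (Fin 4 → E → Fin M) = (Finset.univ : Finset (Fin 4 → E → Fin M)).card := by
          rw [Finset.card_univ]
      _ ≤ _ := Finset.card_le_card hcov
      _ ≤ _ := Finset.card_biUnion_le
  have h2 : ∀ jk : J × Fin M, (avoid (Z jk.1) jk.2).card * (M ^ 4) ^ T
      = (M ^ 4 - 1) ^ T * Fintype.card (Fin 4 → E → Fin M) := by
    intro jk
    have := card_avoid jk.2 (Z jk.1) (fun x hx y hy hxy =>
      hY jk.1 x (hZY _ hx) y (hZY _ hy) hxy)
    rwa [hZT] at this
  have h3 : Fintype.card (Fin 4 → E → Fin M) * (M ^ 4) ^ T ≤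
      Fintype.card J * M * (M ^ 4 - 1) ^ T * Fintype.card (Fin 4 → E → Fin M) := by
    calc Fintype.card (Fin 4 → E → Fin M) * (M ^ 4) ^ T
        ≤ (∑ jk : J × Fin M, (avoid (Z jk.1) jk.2).card) * (M ^ 4) ^ T :=
          Nat.mul_le_mul_right _ h1
      _ = ∑ jk : J × Fin M, (avoid (Z jk.1) jk.2).card * (M ^ 4) ^ T := by
          rw [Finset.sum_mul]
      _ = ∑ _jk : J × Fin M, (M ^ 4 - 1) ^ T * Fintype.card (Fin 4 → E → Fin M) :=
          Finset.sum_congr rfl fun jk _ => h2 jk
      _ = _ := by
          rw [Finset.sum_const, Finset.card_univ, Fintype.card_prod, Fintype.card_fin]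
          simp only [smul_eq_mul]
          ring
  have hpos : 0 < Fintype.card (Fin 4 → E → Fin M) := by
    have : Nonempty (Fin M) := ⟨⟨0, hM⟩⟩
    exact Fintype.card_pos
  have h4 : (M ^ 4) ^ T ≤ Fintype.card J * M * (M ^ 4 - 1) ^ T := by
    by_contra h
    push Not at h
    have := Nat.mul_lt_mul_of_pos_right h hpos
    have h5 : Fintype.card (Fin 4 → E → Fin M) * (M ^ 4) ^ T =
      (M ^ 4) ^ T * Fintype.card (Fin 4 → E → Fin M) := Nat.mul_comm _ _
    omega
  omega

/-- Among the colours, one colour class (over the four sheets together) is small. -/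
theorem exists_small_color {E : Type*} [Fintype E] [DecidableEq E] {M : ℕ} (hM : 0 < M)
    (c : Fin 4 → E → Fin M) :
    ∃ k : Fin M, M * ∑ l, ((Finset.univ : Finset E).filter (fun z => c l z = k)).card
      ≤ 4 * Fintype.card E := by
  classical
  by_contra hcon
  push Not at hcon
  have hsum : ∑ k : Fin M, ∑ l, ((Finset.univ : Finset E).filter (fun z => c l z = k)).card
      = 4 * Fintype.card E := by
    rw [Finset.sum_comm]
    have : ∀ l : Fin 4, ∑ k : Fin M, ((Finset.univ : Finset E).filter (fun z => c l z = k)).card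
        = Fintype.card E := by
      intro l
      rw [← Finset.card_univ (α := E)]
      exact (Finset.card_eq_sum_card_fiberwise (fun x _ => Finset.mem_univ (c l x))).symm
    rw [Finset.sum_congr rfl fun l _ => this l]
    simp
  have hlt : ∑ _k : Fin M, 4 * Fintype.card E <
      ∑ k : Fin M, M * ∑ l, ((Finset.univ : Finset E).filter (fun z => c l z = k)).card := by
    apply Finset.sum_lt_sum_of_nonempty
    · exact ⟨⟨0, hM⟩, Finset.mem_univ _⟩
    · intro k _
      exact hcon k
  have h6 : ∑ k : Fin M, M * ∑ l, ((Finset.univ : Finset E).filter (fun z => c l z = k)).card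
      = M * (4 * Fintype.card E) := by
    rw [← Finset.mul_sum, hsum]
  rw [h6, Finset.sum_const, Finset.card_univ, Fintype.card_fin, smul_eq_mul] at hlt
  omega

end Pool.Agent.R866.SatC6
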