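import Mathlib

/-!
The affine part of the polarity graph of the generalized quadrangle `W(q)`, `q = 2 ^ odd`,
in the form: vertices `(a, b, d) ∈ F³`, with `(a,b,d) ~ (a',b',d')` iff
`b' + d = a' a²` and `b + d' = a a'²`.
-/

namespace Pool.Agent.R866.SatC6

variable {F : Type*} [Field F] [CharP F 2]

/-- The (looped) adjacency relation. -/
def R (v w : F × F × F) : Prop :=
  w.2.1 + v.2.2 = w.1 * v.1 ^ 2 ∧ v.2.1 + w.2.2 = v.1 * w.1 ^ 2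

omit [CharP F 2] in
theorem R.symm {v w : F × F × F} (h : R v w) : R w v := ⟨h.2, h.1⟩

/-- The neighbour of `v` with first coordinate `a`. -/
def nxt (v : F × F × F) (a : F) : F × F × F := (a, v.2.2 + a * v.1 ^ 2, v.2.1 + v.1 * a ^ 2)

theorem two_zero : (2 : F) = 0 := CharTwo.two_eq_zero

theorem addself (x : F) : x + x = 0 := CharTwo.add_self_eq_zero x

theorem eq_of_add {x y : F} (h : x + y = 0) : x = y := CharTwo.add_eq_zero.mp h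

theorem R_nxt (v : F × F × F) (a : F) : R v (nxt v a) := by
  constructor
  · simp only [nxt]
    linear_combination addself v.2.2
  · simp only [nxt]
    linear_combination addself v.2.1

omit [CharP F 2] in
/-- Two neighbours of the same vertex with the same first coordinate agree. -/
theorem R_unique {v w w' : F × F × F} (h : R v w) (h' : R v w') (e : w.1 = w'.1) : w = w' := by
  obtain ⟨h1, h2⟩ := h
  obtain ⟨h1', h2'⟩ := h'
  rw [e] at h1 h2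
  have e1 : w.2.1 = w'.2.1 := by linear_combination h1 - h1'
  have e2 : w.2.2 = w'.2.2 := by linear_combination h2 - h2'
  exact Prod.ext e (Prod.ext e1 e2)

/-- No four-cycles. -/
theorem R_four {v0 v1 v2 v3 : F × F × F} (h01 : R v0 v1) (h12 : R v1 v2) (h23 : R v2 v3)
    (h30 : R v3 v0) : v0 = v2 ∨ v1 = v3 := by
  have e : (v0.1 + v2.1) * (v1.1 + v3.1) ^ 2 = 0 := by
    have h1 := h01.2
    have h2 := h12.1
    have h3 := h23.2
    have h4 := h30.1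
    -- b0 + d1 = a0 a1^2, b2 + d1 = a2 a1^2, b2 + d3 = a2 a3^2, b0 + d3 = a0 a3^2
    linear_combination - h1 - h2 - h3 - h4 + (v0.2.1 + v1.2.2 + v2.2.1 + v3.2.2 +
      (v0.1 + v2.1) * (v1.1 * v3.1)) * (two_zero (F := F))
  rcases mul_eq_zero.mp e with h | h
  · left
    exact R_unique h01.symm h12 (eq_of_add h)
  · right
    have h' := pow_eq_zero_iff (two_ne_zero) |>.mp h
    exact R_unique h12.symm h23 (eq_of_add h')

/-- Closed three-walks are degenerate. -/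
theorem R_three {v0 v1 v2 : F × F × F} (h01 : R v0 v1) (h12 : R v1 v2) (h20 : R v2 v0) :
    (v0.1 + v1.1) * (v1.1 + v2.1) * (v0.1 + v2.1) = 0 := by
  obtain ⟨h1, h2⟩ := h01
  obtain ⟨h3, h4⟩ := h12
  obtain ⟨h5, h6⟩ := h20
  linear_combination - h1 - h2 - h3 - h4 - h5 - h6 + (v0.2.1 + v0.2.2 + v1.2.1 + v1.2.2 + v2.2.1
    + v2.2.2 + v0.1 * v1.1 * v2.1) * (two_zero (F := F))

/-- No six-cycles. -/
theorem R_six (hc : ∀ x y : F, x ^ 3 = y ^ 3 → x = y) {v0 v1 v2 v3 v4 v5 : F × F × F}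
    (h01 : R v0 v1) (h12 : R v1 v2) (h23 : R v2 v3) (h34 : R v3 v4) (h45 : R v4 v5)
    (h50 : R v5 v0) (n02 : v0 ≠ v2) (n24 : v2 ≠ v4) (n40 : v4 ≠ v0)
    (n35 : v3 ≠ v5) : False := by
  have X0 : v0.1 + v2.1 ≠ 0 := fun h => n02 (R_unique h01.symm h12 (eq_of_add h))
  have Y0 : v2.1 + v4.1 ≠ 0 := fun h => n24 (R_unique h23.symm h34 (eq_of_add h))
  have Z0 : v4.1 + v0.1 ≠ 0 := fun h => n40 (R_unique h45.symm h50 (eq_of_add h))
  have w0 : v3.1 + v5.1 ≠ 0 := fun h => n35 (R_unique h34.symm h45 (eq_of_add h))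
  have eB : (v0.1 + v2.1) * (v1.1 + v5.1) ^ 2 + (v2.1 + v4.1) * (v3.1 + v5.1) ^ 2 = 0 := by
    have h1 := h01.2
    have h2 := h12.1
    have h3 := h23.2
    have h4 := h34.1
    have h5 := h45.2
    have h6 := h50.1
    linear_combination - h1 - h2 - h3 - h4 - h5 - h6 + (v0.2.1 + v1.2.2 + v2.2.1 + v3.2.2
      + v4.2.1 + v5.2.2
      + (v0.1 + v2.1) * (v1.1 * v5.1) + (v2.1 + v4.1) * (v3.1 * v5.1)
      + v2.1 * v5.1 ^ 2) * (two_zero (F := F))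
  have eD : (v0.1 + v2.1) ^ 2 * (v1.1 + v5.1) + (v2.1 + v4.1) ^ 2 * (v3.1 + v5.1) = 0 := by
    have h1 := h01.1
    have h2 := h12.2
    have h3 := h23.1
    have h4 := h34.2
    have h5 := h45.1
    have h6 := h50.2
    linear_combination - h1 - h2 - h3 - h4 - h5 - h6 + (v0.2.2 + v1.2.1 + v2.2.2 + v3.2.1
      + v4.2.2 + v5.2.1
      + v0.1 * v2.1 * (v1.1 + v5.1) + v2.1 * v4.1 * (v3.1 + v5.1)
      + v5.1 * v2.1 ^ 2) * (two_zero (F := F))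
  have e1 : (v0.1 + v2.1) * (v1.1 + v5.1) ^ 2 = (v2.1 + v4.1) * (v3.1 + v5.1) ^ 2 := eq_of_add eB
  have e2 : (v0.1 + v2.1) ^ 2 * (v1.1 + v5.1) = (v2.1 + v4.1) ^ 2 * (v3.1 + v5.1) := eq_of_add eD
  have e3 : (v0.1 + v2.1) ^ 3 * ((v2.1 + v4.1) * (v3.1 + v5.1) ^ 2)
      = (v2.1 + v4.1) ^ 3 * ((v2.1 + v4.1) * (v3.1 + v5.1) ^ 2) := by
    calc (v0.1 + v2.1) ^ 3 * ((v2.1 + v4.1) * (v3.1 + v5.1) ^ 2)
        = (v0.1 + v2.1) ^ 3 * ((v0.1 + v2.1) * (v1.1 + v5.1) ^ 2) := by rw [e1]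
      _ = ((v0.1 + v2.1) ^ 2 * (v1.1 + v5.1)) ^ 2 := by ring
      _ = ((v2.1 + v4.1) ^ 2 * (v3.1 + v5.1)) ^ 2 := by rw [e2]
      _ = _ := by ring
  have e4 : (v0.1 + v2.1) ^ 3 = (v2.1 + v4.1) ^ 3 :=
    mul_right_cancel₀ (mul_ne_zero Y0 (pow_ne_zero 2 w0)) e3
  have e5 := hc _ _ e4
  apply Z0
  have : v0.1 = v4.1 := by linear_combination e5
  rw [this]
  exact addself _

/-- The simple graph. -/
def Gr (F : Type*) [Field F] [CharP F 2] : SimpleGraph (F × F × F) where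
  Adj v w := v ≠ w ∧ R v w
  symm := ⟨fun _ _ h => ⟨h.1.symm, h.2.symm⟩⟩
  loopless := ⟨fun _ h => h.1 rfl⟩

/-- Five-edge path between distinct vertices `v0`, `v5`, described by its first coordinates. -/
theorem path_of_sol {v0 v5 : F × F × F} (hne : v0 ≠ v5) {a1 a2 a3 a4 : F}
    (e1 : (a1 + a3) * (v0.1 + a2) ^ 2 + (a3 + v5.1) * (v0.1 + a4) ^ 2
      = v5.2.1 + v0.2.2 + v5.1 * v0.1 ^ 2)
    (e2 : (v0.1 + a2) * (a1 + a3) ^ 2 + (v0.1 + a4) * (a3 + v5.1) ^ 2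
      = v0.2.1 + v5.2.2 + v0.1 * v5.1 ^ 2)
    (p0 : v0.1 ≠ a2) (s0 : a1 ≠ a3) (r0 : v0.1 ≠ a4) (t0 : a3 ≠ v5.1) (pr : a2 ≠ a4)
    (st : a1 ≠ v5.1) (n01 : v0.1 ≠ a1) (n12 : a1 ≠ a2) (n23 : a2 ≠ a3) (n34 : a3 ≠ a4)
    (n45 : a4 ≠ v5.1) :
    ∃ v1 v2 v3 v4 : F × F × F, v1.1 = a1 ∧ v2.1 = a2 ∧ v3.1 = a3 ∧ v4.1 = a4 ∧
      R v0 v1 ∧ R v1 v2 ∧ R v2 v3 ∧ R v3 v4 ∧ R v4 v5 ∧
      v0 ≠ v1 ∧ v0 ≠ v2 ∧ v0 ≠ v3 ∧ v0 ≠ v4 ∧ v0 ≠ v5 ∧ v1 ≠ v2 ∧ v1 ≠ v3 ∧ v1 ≠ v4 ∧ v1 ≠ v5 ∧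
      v2 ≠ v3 ∧ v2 ≠ v4 ∧ v2 ≠ v5 ∧ v3 ≠ v4 ∧ v3 ≠ v5 ∧ v4 ≠ v5 := by
  have hadd : ∀ {x y : F}, x ≠ y → x + y ≠ 0 := fun h h' => h (eq_of_add h')
  have R1 : R v0 (nxt v0 a1) := R_nxt _ _
  have R2 : R (nxt v0 a1) (nxt (nxt v0 a1) a2) := R_nxt _ _
  have R5 : R (nxt v5 a4) v5 := (R_nxt _ _).symm
  have R4 : R (nxt (nxt v5 a4) a3) (nxt v5 a4) := (R_nxt _ _).symm
  have R3 : R (nxt (nxt v0 a1) a2) (nxt (nxt v5 a4) a3) := by
    constructor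
    · simp only [nxt]
      linear_combination e1 + (v5.2.1 + v0.2.2
        - a3 * v0.1 * a2 - a3 * v0.1 * a4 - a1 * v0.1 * a2 - v5.1 * v0.1 * a4
        - a3 * v0.1 ^ 2 - a3 * a2 ^ 2) * (two_zero (F := F))
    · simp only [nxt]
      linear_combination e2 + (v0.2.1 + v5.2.2
        - v0.1 * a1 * a3 - a2 * a1 * a3 - v0.1 * a3 * v5.1 - a4 * a3 * v5.1
        - v0.1 * a3 ^ 2 - a2 * a3 ^ 2) * (two_zero (F := F))
  refine ⟨nxt v0 a1, nxt (nxt v0 a1) a2, nxt (nxt v5 a4) a3, nxt v5 a4, rfl, rfl, rfl, rfl,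
    R1, R2, R3, R4, R5, ?_, ?_, ?_, ?_, hne, ?_, ?_, ?_, ?_, ?_, ?_, ?_, ?_, ?_, ?_⟩
  · exact fun h => n01 (congrArg Prod.fst h)
  · exact fun h => p0 (congrArg Prod.fst h)
  · intro h
    rw [← h] at R3
    have := R_three R1 R2 R3
    exact mul_ne_zero (mul_ne_zero (hadd n01) (hadd n12)) (hadd p0) this
  · exact fun h => r0 (congrArg Prod.fst h)
  · exact fun h => n12 (congrArg Prod.fst h)
  · exact fun h => s0 (congrArg Prod.fst h)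
  · intro h
    have R4' : R (nxt (nxt v5 a4) a3) (nxt v0 a1) := by rw [h]; exact R4
    have := R_three R2 R3 R4'
    exact mul_ne_zero (mul_ne_zero (hadd n12) (hadd n23)) (hadd s0) this
  · exact fun h => st (congrArg Prod.fst h)
  · exact fun h => n23 (congrArg Prod.fst h)
  · exact fun h => pr (congrArg Prod.fst h)
  · intro h
    have R5' : R (nxt v5 a4) (nxt (nxt v0 a1) a2) := by rw [h]; exact R5
    have := R_three R3 R4 R5'
    exact mul_ne_zero (mul_ne_zero (hadd n23) (hadd n34)) (hadd pr) this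
  · exact fun h => n34 (congrArg Prod.fst h)
  · exact fun h => t0 (congrArg Prod.fst h)
  · exact fun h => n45 (congrArg Prod.fst h)

end Pool.Agent.R866.SatC6
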