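import Pool.Agent.R866.SatC6Comb
import Pool.Agent.R866.SatC6Graph

/-!
Counting the five-step walks between two vertices.
-/

namespace Pool.Agent.R866.SatC6

open Finset

section inj

variable {F : Type*} [Field F] [CharP F 2]

omit [CharP F 2] in
theorem f_inj (hc : ∀ x y : F, x ^ 3 = y ^ 3 → x = y) {p s p' s' : F} (hp : p ≠ 0) (hs : s ≠ 0)
    (h1 : s * p ^ 2 = s' * p' ^ 2) (h2 : p * s ^ 2 = p' * s' ^ 2) : p = p' ∧ s = s' := by
  have h3 : (p * s) ^ 3 = (p' * s') ^ 3 := by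
    calc (p * s) ^ 3 = (s * p ^ 2) * (p * s ^ 2) := by ring
      _ = (s' * p' ^ 2) * (p' * s' ^ 2) := by rw [h1, h2]
      _ = _ := by ring
  have h4 := hc _ _ h3
  have h5 : p * (p * s) = p' * (p * s) := by
    calc p * (p * s) = s * p ^ 2 := by ring
      _ = s' * p' ^ 2 := h1
      _ = p' * (p' * s') := by ring
      _ = _ := by rw [h4]
  have h6 : p = p' := mul_right_cancel₀ (mul_ne_zero hp hs) h5
  refine ⟨h6, ?_⟩
  rw [h6] at h4 hp
  exact mul_left_cancel₀ hp h4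

omit [CharP F 2] in
theorem f_surj [Finite F] (hc : ∀ x y : F, x ^ 3 = y ^ 3 → x = y) {u v : F} (hu : u ≠ 0)
    (hv : v ≠ 0) : ∃ p s : F, p ≠ 0 ∧ s ≠ 0 ∧ s * p ^ 2 = u ∧ p * s ^ 2 = v := by
  have hinj : Function.Injective (fun x : F => x ^ 3) := fun x y h => hc x y h
  have hsurj := Finite.surjective_of_injective hinj
  obtain ⟨w, hw⟩ := hsurj (u * v)
  simp only at hw
  have hw0 : w ≠ 0 := by
    rintro rfl
    rw [zero_pow (by norm_num)] at hw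
    exact mul_ne_zero hu hv hw.symm
  refine ⟨u / w, v / w, div_ne_zero hu hw0, div_ne_zero hv hw0, ?_, ?_⟩
  · field_simp
    rw [hw]; ring
  · field_simp
    rw [hw]

/-- With `s ≠ t` the pair `(s, t)` determines `(p, r)`. -/
theorem inj1 (hc : ∀ x y : F, x ^ 3 = y ^ 3 → x = y) {p s r t p' r' : F} (hs : s ≠ 0)
    (ht : t ≠ 0) (hst : s ≠ t)
    (h1 : s * p ^ 2 + t * r ^ 2 = s * p' ^ 2 + t * r' ^ 2)
    (h2 : p * s ^ 2 + r * t ^ 2 = p' * s ^ 2 + r' * t ^ 2) : p = p' ∧ r = r' := by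
  have e1 : s * (p + p') ^ 2 = t * (r + r') ^ 2 := by
    linear_combination h1 + (s * p' ^ 2 - t * r ^ 2 + s * p * p' - t * r * r')
      * (two_zero (F := F))
  have e2 : (p + p') * s ^ 2 = (r + r') * t ^ 2 := by
    linear_combination h2 + (p' * s ^ 2 - r * t ^ 2) * (two_zero (F := F))
  have e3 : (r + r') ^ 2 * t * t ^ 3 = (r + r') ^ 2 * t * s ^ 3 := by
    have : s ^ 3 * (s * (p + p') ^ 2) = ((p + p') * s ^ 2) ^ 2 := by ring
    rw [e1, e2] at this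
    linear_combination -this
  by_cases hr : r + r' = 0
  · rw [hr] at e2
    have hp : p + p' = 0 := by
      have : (p + p') * s ^ 2 = 0 := by rw [e2]; ring
      rcases mul_eq_zero.mp this with h | h
      · exact h
      · exact absurd (pow_eq_zero_iff two_ne_zero |>.mp h) hs
    exact ⟨eq_of_add hp, eq_of_add hr⟩
  · exfalso
    have h3 : t ^ 3 = s ^ 3 :=
      mul_left_cancel₀ (mul_ne_zero (pow_ne_zero 2 hr) ht) e3
    exact hst (hc _ _ h3).symm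

/-- With `p ≠ r` the pair `(p, r)` determines `(s, t)`. -/
theorem inj2 (hc : ∀ x y : F, x ^ 3 = y ^ 3 → x = y) {p s r t s' t' : F} (hp : p ≠ 0)
    (hr : r ≠ 0) (hpr : p ≠ r)
    (h1 : s * p ^ 2 + t * r ^ 2 = s' * p ^ 2 + t' * r ^ 2)
    (h2 : p * s ^ 2 + r * t ^ 2 = p * s' ^ 2 + r * t' ^ 2) : s = s' ∧ t = t' :=
  inj1 hc hp hr hpr h2 h1

end inj

variable {F : Type*} [Field F] [CharP F 2] [Fintype F] [DecidableEq F]

/-- Solutions `(p, s, r, t)` with all entries nonzero. -/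
def S0 (β δ : F) : Finset (F × F × F × F) :=
  Finset.univ.filter (fun x => (x.2.1 * x.1 ^ 2 + x.2.2.2 * x.2.2.1 ^ 2 = β ∧
    x.1 * x.2.1 ^ 2 + x.2.2.1 * x.2.2.2 ^ 2 = δ) ∧ x.1 ≠ 0 ∧ x.2.1 ≠ 0 ∧ x.2.2.1 ≠ 0 ∧
    x.2.2.2 ≠ 0)

/-- Solutions with moreover `s ≠ t` and `p ≠ r`. -/
def S1 (β δ : F) : Finset (F × F × F × F) :=
  (S0 β δ).filter (fun x => x.2.1 ≠ x.2.2.2 ∧ x.1 ≠ x.2.2.1)

/-- Good solutions. -/
def S2 (a0 a5 β δ : F) : Finset (F × F × F × F) :=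
  (S1 β δ).filter (fun x => a0 ≠ a5 + x.2.1 + x.2.2.2 ∧ a0 + x.2.2.1 ≠ a5 ∧
    a5 + x.2.2.2 ≠ a0 + x.2.2.1 ∧ a5 + x.2.1 + x.2.2.2 ≠ a0 + x.1 ∧ a0 + x.1 ≠ a5 + x.2.2.2)

theorem card_S0 (hc : ∀ x y : F, x ^ 3 = y ^ 3 → x = y) (β δ : F) :
    (Fintype.card F - 2) * (Fintype.card F - 2) ≤ (S0 β δ).card := by
  have h1 : ∀ γ : F, Fintype.card F - 2 ≤ ((Finset.univ.erase (0 : F)).erase γ).card := by
    intro γ
    have := Finset.pred_card_le_card_erase (s := Finset.univ.erase (0 : F)) (a := γ)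
    rw [Finset.card_erase_of_mem (Finset.mem_univ _), Finset.card_univ] at this
    omega
  calc (Fintype.card F - 2) * (Fintype.card F - 2)
      ≤ ((Finset.univ.erase (0 : F)).erase β).card * ((Finset.univ.erase (0 : F)).erase δ).card :=
        Nat.mul_le_mul (h1 β) (h1 δ)
    _ = (((Finset.univ.erase (0 : F)).erase β) ×ˢ ((Finset.univ.erase (0 : F)).erase δ)).card := by
        rw [Finset.card_product]
    _ ≤ (S0 β δ).card := by
        refine Finset.card_le_card_of_surjOn (fun x => (x.2.1 * x.1 ^ 2, x.1 * x.2.1 ^ 2)) ?_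
        rintro ⟨u, v⟩ huv
        simp only [Finset.coe_product, Set.mem_prod, Finset.mem_coe, Finset.mem_erase,
          Finset.mem_univ, and_true] at huv
        obtain ⟨⟨hu1, hu0⟩, hv1, hv0⟩ := huv
        obtain ⟨p, s, hp, hs, e1, e2⟩ := f_surj hc hu0 hv0
        have hu' : β + u ≠ 0 := fun h => hu1 (eq_of_add h).symm
        have hv' : δ + v ≠ 0 := fun h => hv1 (eq_of_add h).symm
        obtain ⟨r, t, hr, ht, e3, e4⟩ := f_surj hc hu' hv'
        refine ⟨(p, s, r, t), ?_, ?_⟩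
        · simp only [S0, Finset.coe_filter, Finset.mem_univ, true_and, Set.mem_ofPred_eq]
          refine ⟨⟨?_, ?_⟩, hp, hs, hr, ht⟩
          · rw [e1, e3]
            linear_combination addself u
          · rw [e2, e4]
            linear_combination addself v
        · simp [e1, e2]

theorem card_le_of_inj {X : Finset (F × F × F × F)} (g : F × F × F × F → F)
    (hg : ∀ x ∈ X, ∀ y ∈ X, g x = g y → x = y) : X.card ≤ Fintype.card F := by
  rw [← Finset.card_univ (α := F)]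
  exact Finset.card_le_card_of_injOn g (fun _ _ => Finset.mem_univ _)
    (fun x hx y hy h => hg x hx y hy h)

theorem ext4 {x y : F × F × F × F} (h1 : x.1 = y.1) (h2 : x.2.1 = y.2.1)
    (h3 : x.2.2.1 = y.2.2.1) (h4 : x.2.2.2 = y.2.2.2) : x = y :=
  Prod.ext h1 (Prod.ext h2 (Prod.ext h3 h4))

theorem mem_S0 {β δ : F} {x : F × F × F × F} : x ∈ S0 β δ ↔
    (x.2.1 * x.1 ^ 2 + x.2.2.2 * x.2.2.1 ^ 2 = β ∧
    x.1 * x.2.1 ^ 2 + x.2.2.1 * x.2.2.2 ^ 2 = δ) ∧ x.1 ≠ 0 ∧ x.2.1 ≠ 0 ∧ x.2.2.1 ≠ 0 ∧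
    x.2.2.2 ≠ 0 := by
  simp [S0]

theorem S1_inj1 (hc : ∀ x y : F, x ^ 3 = y ^ 3 → x = y) {β δ : F} {x y : F × F × F × F}
    (hx : x ∈ S1 β δ) (hy : y ∈ S1 β δ) (h1 : x.2.1 = y.2.1) (h2 : x.2.2.2 = y.2.2.2) : x = y := by
  obtain ⟨hx0, hx1⟩ := Finset.mem_filter.mp hx
  obtain ⟨hy0, -⟩ := Finset.mem_filter.mp hy
  obtain ⟨⟨e1, e2⟩, -, hs, -, ht⟩ := mem_S0.mp hx0
  obtain ⟨⟨e3, e4⟩, -⟩ := mem_S0.mp hy0
  rw [← h1, ← h2] at e3 e4
  obtain ⟨h3, h4⟩ := inj1 hc hs ht hx1.1 (e1.trans e3.symm) (e2.trans e4.symm)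
  exact ext4 h3 h1 h4 h2

theorem S1_inj2 (hc : ∀ x y : F, x ^ 3 = y ^ 3 → x = y) {β δ : F} {x y : F × F × F × F}
    (hx : x ∈ S1 β δ) (hy : y ∈ S1 β δ) (h1 : x.1 = y.1) (h2 : x.2.2.1 = y.2.2.1) : x = y := by
  obtain ⟨hx0, hx1⟩ := Finset.mem_filter.mp hx
  obtain ⟨hy0, -⟩ := Finset.mem_filter.mp hy
  obtain ⟨⟨e1, e2⟩, hp, -, hr, -⟩ := mem_S0.mp hx0
  obtain ⟨⟨e3, e4⟩, -⟩ := mem_S0.mp hy0
  rw [← h1, ← h2] at e3 e4
  obtain ⟨h3, h4⟩ := inj2 hc hp hr hx1.2 (e1.trans e3.symm) (e2.trans e4.symm)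
  exact ext4 h1 h3 h2 h4

theorem card_B1 (hc : ∀ x y : F, x ^ 3 = y ^ 3 → x = y) {β δ : F} (hne : ¬(β = 0 ∧ δ = 0)) :
    ((S0 β δ).filter (fun x => x.2.1 = x.2.2.2)).card ≤ Fintype.card F := by
  refine card_le_of_inj (fun x => x.1) ?_
  intro x hx y hy h
  obtain ⟨hx0, hx1⟩ := Finset.mem_filter.mp hx
  obtain ⟨hy0, hy1⟩ := Finset.mem_filter.mp hy
  obtain ⟨⟨e1, e2⟩, hp, hs, hr, ht⟩ := mem_S0.mp hx0
  obtain ⟨⟨e3, e4⟩, hp', hs', hr', ht'⟩ := mem_S0.mp hy0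
  rw [← hx1] at e1 e2
  rw [← hy1] at e3 e4
  have k1 : x.2.1 * (x.1 + x.2.2.1) ^ 2 = β := by
    rw [← e1]; linear_combination x.2.1 * x.1 * x.2.2.1 * (two_zero (F := F))
  have k2 : (x.1 + x.2.2.1) * x.2.1 ^ 2 = δ := by rw [← e2]; ring
  have k3 : y.2.1 * (y.1 + y.2.2.1) ^ 2 = β := by
    rw [← e3]; linear_combination y.2.1 * y.1 * y.2.2.1 * (two_zero (F := F))
  have k4 : (y.1 + y.2.2.1) * y.2.1 ^ 2 = δ := by rw [← e4]; ring
  have hne0 : x.1 + x.2.2.1 ≠ 0 := by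
    intro h0
    rw [h0] at k1 k2
    exact hne ⟨by rw [← k1]; ring, by rw [← k2]; ring⟩
  obtain ⟨m1, m2⟩ := f_inj hc hne0 hs (k1.trans k3.symm) (k2.trans k4.symm)
  have m3 : x.2.2.1 = y.2.2.1 := by linear_combination m1 - h
  exact ext4 h m2 m3 (hx1.symm.trans (m2.trans hy1))

theorem card_B2 (hc : ∀ x y : F, x ^ 3 = y ^ 3 → x = y) {β δ : F} (hne : ¬(β = 0 ∧ δ = 0)) :
    ((S0 β δ).filter (fun x => x.1 = x.2.2.1)).card ≤ Fintype.card F := by
  refine card_le_of_inj (fun x => x.2.1) ?_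
  intro x hx y hy h
  obtain ⟨hx0, hx1⟩ := Finset.mem_filter.mp hx
  obtain ⟨hy0, hy1⟩ := Finset.mem_filter.mp hy
  obtain ⟨⟨e1, e2⟩, hp, hs, hr, ht⟩ := mem_S0.mp hx0
  obtain ⟨⟨e3, e4⟩, hp', hs', hr', ht'⟩ := mem_S0.mp hy0
  rw [← hx1] at e1 e2
  rw [← hy1] at e3 e4
  have k1 : (x.2.1 + x.2.2.2) * x.1 ^ 2 = β := by rw [← e1]; ring
  have k2 : x.1 * (x.2.1 + x.2.2.2) ^ 2 = δ := by
    rw [← e2]; linear_combination x.1 * x.2.1 * x.2.2.2 * (two_zero (F := F))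
  have k3 : (y.2.1 + y.2.2.2) * y.1 ^ 2 = β := by rw [← e3]; ring
  have k4 : y.1 * (y.2.1 + y.2.2.2) ^ 2 = δ := by
    rw [← e4]; linear_combination y.1 * y.2.1 * y.2.2.2 * (two_zero (F := F))
  have hne0 : x.2.1 + x.2.2.2 ≠ 0 := by
    intro h0
    rw [h0] at k1 k2
    exact hne ⟨by rw [← k1]; ring, by rw [← k2]; ring⟩
  obtain ⟨m1, m2⟩ := f_inj hc hp hne0 (k1.trans k3.symm) (k2.trans k4.symm)
  have m3 : x.2.2.2 = y.2.2.2 := by linear_combination m2 - h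
  exact ext4 m1 h (hx1.symm.trans (m1.trans hy1)) m3

theorem card_B3 (hc : ∀ x y : F, x ^ 3 = y ^ 3 → x = y) (a0 a5 β δ : F) :
    ((S1 β δ).filter (fun x => a0 = a5 + x.2.1 + x.2.2.2)).card ≤ Fintype.card F := by
  refine card_le_of_inj (fun x => x.2.1) ?_
  intro x hx y hy h
  obtain ⟨hx0, hx1⟩ := Finset.mem_filter.mp hx
  obtain ⟨hy0, hy1⟩ := Finset.mem_filter.mp hy
  exact S1_inj1 hc hx0 hy0 h (by linear_combination hy1 - hx1 - h)

theorem card_B4 (hc : ∀ x y : F, x ^ 3 = y ^ 3 → x = y) (a0 a5 β δ : F) :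
    ((S1 β δ).filter (fun x => a0 + x.2.2.1 = a5)).card ≤ Fintype.card F := by
  refine card_le_of_inj (fun x => x.1) ?_
  intro x hx y hy h
  obtain ⟨hx0, hx1⟩ := Finset.mem_filter.mp hx
  obtain ⟨hy0, hy1⟩ := Finset.mem_filter.mp hy
  exact S1_inj2 hc hx0 hy0 h (by linear_combination hx1 - hy1)

theorem card_B5 (hc : ∀ x y : F, x ^ 3 = y ^ 3 → x = y) (a0 a5 β δ : F) :
    ((S1 β δ).filter (fun x => a5 + x.2.2.2 = a0 + x.2.2.1)).card ≤ Fintype.card F := by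
  refine card_le_of_inj (fun x => x.2.2.2) ?_
  intro x hx y hy h
  obtain ⟨hx0, hx1⟩ := Finset.mem_filter.mp hx
  obtain ⟨hy0, hy1⟩ := Finset.mem_filter.mp hy
  obtain ⟨hx2, -⟩ := Finset.mem_filter.mp hx0
  obtain ⟨hy2, -⟩ := Finset.mem_filter.mp hy0
  obtain ⟨⟨e1, e2⟩, hp, hs, hr, ht⟩ := mem_S0.mp hx2
  obtain ⟨⟨e3, e4⟩, -⟩ := mem_S0.mp hy2
  have hr' : x.2.2.1 = y.2.2.1 := by linear_combination h - hx1 + hy1
  rw [← hr', ← h] at e3 e4
  obtain ⟨m1, m2⟩ := f_inj hc hp hs (s' := y.2.1) (p' := y.1)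
    (by linear_combination e1 - e3) (by linear_combination e2 - e4)
  exact ext4 m1 m2 hr' h

theorem card_B6 (hc : ∀ x y : F, x ^ 3 = y ^ 3 → x = y) (a0 a5 β δ : F) :
    ((S1 β δ).filter (fun x => a5 + x.2.1 + x.2.2.2 = a0 + x.1)).card ≤ Fintype.card F := by
  refine card_le_of_inj (fun x => x.1) ?_
  intro x hx y hy h
  obtain ⟨hx0, hx1⟩ := Finset.mem_filter.mp hx
  obtain ⟨hy0, hy1⟩ := Finset.mem_filter.mp hy
  obtain ⟨hx2, hx3⟩ := Finset.mem_filter.mp hx0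
  obtain ⟨hy2, -⟩ := Finset.mem_filter.mp hy0
  obtain ⟨⟨e1, e2⟩, hp, hs, hr, ht⟩ := mem_S0.mp hx2
  obtain ⟨⟨e3, e4⟩, -⟩ := mem_S0.mp hy2
  have hk : x.2.1 + x.2.2.2 = y.2.1 + y.2.2.2 := by linear_combination hx1 - hy1 + h
  -- in terms of `κ = s + t`:  κ p² + t (p+r)² = β,  p κ² + (p+r) t² = δ
  have k1 : (x.2.1 + x.2.2.2) * x.1 ^ 2 + x.2.2.2 * (x.1 + x.2.2.1) ^ 2 = β := by
    rw [← e1]
    linear_combination (x.2.2.2 * x.1 ^ 2 + x.2.2.2 * x.1 * x.2.2.1) * (two_zero (F := F))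
  have k2 : x.1 * (x.2.1 + x.2.2.2) ^ 2 + (x.1 + x.2.2.1) * x.2.2.2 ^ 2 = δ := by
    rw [← e2]
    linear_combination (x.1 * x.2.2.2 ^ 2 + x.1 * x.2.1 * x.2.2.2) * (two_zero (F := F))
  have k3 : (y.2.1 + y.2.2.2) * y.1 ^ 2 + y.2.2.2 * (y.1 + y.2.2.1) ^ 2 = β := by
    rw [← e3]
    linear_combination (y.2.2.2 * y.1 ^ 2 + y.2.2.2 * y.1 * y.2.2.1) * (two_zero (F := F))
  have k4 : y.1 * (y.2.1 + y.2.2.2) ^ 2 + (y.1 + y.2.2.1) * y.2.2.2 ^ 2 = δ := by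
    rw [← e4]
    linear_combination (y.1 * y.2.2.2 ^ 2 + y.1 * y.2.1 * y.2.2.2) * (two_zero (F := F))
  rw [← hk, ← h] at k3 k4
  have hpr : x.1 + x.2.2.1 ≠ 0 := fun h0 => hx3.2 (eq_of_add h0)
  obtain ⟨m1, m2⟩ := f_inj hc hpr ht (s' := y.2.2.2) (p' := x.1 + y.2.2.1)
    (by linear_combination k1 - k3) (by linear_combination k2 - k4)
  exact ext4 h (by linear_combination hk - m2) (by linear_combination m1) m2

theorem card_B7 (hc : ∀ x y : F, x ^ 3 = y ^ 3 → x = y) (a0 a5 β δ : F) :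
    ((S1 β δ).filter (fun x => a0 + x.1 = a5 + x.2.2.2)).card ≤ 2 * Fintype.card F := by
  rw [← Finset.card_univ (α := F)]
  refine Finset.card_le_mul_card_image_of_maps_to (f := fun x => x.1)
    (fun _ _ => Finset.mem_univ _) 2 ?_
  intro p _
  rcases Finset.eq_empty_or_nonempty
    (((S1 β δ).filter (fun x => a0 + x.1 = a5 + x.2.2.2)).filter (fun x => x.1 = p)) with h0 | h0
  · rw [h0]; simp
  · obtain ⟨z, hz⟩ := h0
    calc _ ≤ ({z.2.2.1, z.2.2.1 + p} : Finset F).card := by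
          refine Finset.card_le_card_of_injOn (fun x => x.2.2.1) ?_ ?_
          · intro x hx
            have hx' := Finset.mem_coe.mp hx
            obtain ⟨hx1, hxp⟩ := Finset.mem_filter.mp hx'
            obtain ⟨hx2, hx3⟩ := Finset.mem_filter.mp hx1
            obtain ⟨hx4, hx5⟩ := Finset.mem_filter.mp hx2
            obtain ⟨⟨e1, e2⟩, hp, hs, hr, ht⟩ := mem_S0.mp hx4
            obtain ⟨hz1, hzp⟩ := Finset.mem_filter.mp hz
            obtain ⟨hz2, hz3⟩ := Finset.mem_filter.mp hz1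
            obtain ⟨hz4, hz5⟩ := Finset.mem_filter.mp hz2
            obtain ⟨⟨e3, e4⟩, hp', hs', hr', ht'⟩ := mem_S0.mp hz4
            have htt : x.2.2.2 = z.2.2.2 := by
              linear_combination hz3 - hx3 + hxp - hzp
            -- (β + t r²)² = p³ (δ + r t²)
            have k1 : (β + x.2.2.2 * x.2.2.1 ^ 2) ^ 2
                = x.1 ^ 3 * (δ + x.2.2.1 * x.2.2.2 ^ 2) := by
              have h1 : x.2.1 * x.1 ^ 2 = β + x.2.2.2 * x.2.2.1 ^ 2 := by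
                rw [← e1]
                linear_combination -x.2.2.2 * x.2.2.1 ^ 2 * (two_zero (F := F))
              have h2 : x.1 * x.2.1 ^ 2 = δ + x.2.2.1 * x.2.2.2 ^ 2 := by
                rw [← e2]
                linear_combination -x.2.2.1 * x.2.2.2 ^ 2 * (two_zero (F := F))
              rw [← h1, ← h2]; ring
            have k2 : (β + z.2.2.2 * z.2.2.1 ^ 2) ^ 2
                = z.1 ^ 3 * (δ + z.2.2.1 * z.2.2.2 ^ 2) := by
              have h1 : z.2.1 * z.1 ^ 2 = β + z.2.2.2 * z.2.2.1 ^ 2 := by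
                rw [← e3]
                linear_combination -z.2.2.2 * z.2.2.1 ^ 2 * (two_zero (F := F))
              have h2 : z.1 * z.2.1 ^ 2 = δ + z.2.2.1 * z.2.2.2 ^ 2 := by
                rw [← e4]
                linear_combination -z.2.2.1 * z.2.2.2 ^ 2 * (two_zero (F := F))
              rw [← h1, ← h2]; ring
            rw [hxp] at k1
            rw [hzp, ← htt] at k2
            have k3 : x.2.2.2 ^ 2 * ((x.2.2.1 + z.2.2.1) *
                ((x.2.2.1 + z.2.2.1) ^ 3 + p ^ 3)) = 0 := by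
              linear_combination k1 - k2 + (x.2.2.2 ^ 2 * (
                2 * x.2.2.1 ^ 3 * z.2.2.1 + 3 * x.2.2.1 ^ 2 * z.2.2.1 ^ 2
                + 2 * x.2.2.1 * z.2.2.1 ^ 3 + z.2.2.1 ^ 4 + p ^ 3 * x.2.2.1)
                + β * x.2.2.2 * z.2.2.1 ^ 2 - β * x.2.2.2 * x.2.2.1 ^ 2) * (two_zero (F := F))
            have k4 : x.2.2.1 + z.2.2.1 = 0 ∨ (x.2.2.1 + z.2.2.1) ^ 3 + p ^ 3 = 0 := by
              rcases mul_eq_zero.mp k3 with h | h
              · exact absurd (pow_eq_zero_iff two_ne_zero |>.mp h) ht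
              · exact mul_eq_zero.mp h
            simp only [Finset.coe_insert, Finset.coe_singleton, Set.mem_insert_iff,
              Set.mem_singleton_iff]
            rcases k4 with h | h
            · left; exact eq_of_add h
            · right
              have := hc _ _ (eq_of_add h)
              linear_combination this - z.2.2.1 * (two_zero (F := F))
          · intro x hx y hy h
            simp only at h
            have hx' := Finset.mem_coe.mp hx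
            have hy' := Finset.mem_coe.mp hy
            obtain ⟨hx1, hxp⟩ := Finset.mem_filter.mp hx'
            obtain ⟨hx2, -⟩ := Finset.mem_filter.mp hx1
            obtain ⟨hy1, hyp⟩ := Finset.mem_filter.mp hy'
            obtain ⟨hy2, -⟩ := Finset.mem_filter.mp hy1
            exact S1_inj2 hc hx2 hy2 (hxp.trans hyp.symm) h
      _ ≤ 2 := Finset.card_le_two

end Pool.Agent.R866.SatC6
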