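import Pool.Agent.R866.SatC6Main

/-!
From the algebraic graphs to `C₄`-free, `C₆`-saturated graphs on `Fin n` for all large `n`.
-/

namespace Pool.Agent.R866.SatC6

open Finset SimpleGraph

/-! ### cycles as injective closed tuples -/

theorem of_cycle_four {V : Type*} {G : SimpleGraph V} (h : cycleGraph 4 ⊑ G) :
    ∃ f : Fin 4 → V, Function.Injective f ∧ G.Adj (f 0) (f 1) ∧ G.Adj (f 1) (f 2) ∧
      G.Adj (f 2) (f 3) ∧ G.Adj (f 3) (f 0) := by
  obtain ⟨c⟩ := h
  refine ⟨c, c.injective, ?_, ?_, ?_, ?_⟩ <;>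
  · refine c.toHom.map_adj ?_
    rw [cycleGraph_adj']
    decide

theorem of_cycle_six {V : Type*} {G : SimpleGraph V} (h : cycleGraph 6 ⊑ G) :
    ∃ f : Fin 6 → V, Function.Injective f ∧ G.Adj (f 0) (f 1) ∧ G.Adj (f 1) (f 2) ∧
      G.Adj (f 2) (f 3) ∧ G.Adj (f 3) (f 4) ∧ G.Adj (f 4) (f 5) ∧ G.Adj (f 5) (f 0) := by
  obtain ⟨c⟩ := h
  refine ⟨c, c.injective, ?_, ?_, ?_, ?_, ?_, ?_⟩ <;>
  · refine c.toHom.map_adj ?_
    rw [cycleGraph_adj']
    decide

theorem cycle_six_of {V : Type*} {G : SimpleGraph V} (f : Fin 6 → V)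
    (hf : Function.Injective f) (h01 : G.Adj (f 0) (f 1)) (h12 : G.Adj (f 1) (f 2))
    (h23 : G.Adj (f 2) (f 3)) (h34 : G.Adj (f 3) (f 4)) (h45 : G.Adj (f 4) (f 5))
    (h50 : G.Adj (f 5) (f 0)) : cycleGraph 6 ⊑ G := by
  have hs : ∀ i : Fin 6, G.Adj (f i) (f (i + 1)) := by
    intro i
    fin_cases i
    · exact h01
    · exact h12
    · exact h23
    · exact h34
    · exact h45
    · exact h50
  refine ⟨⟨⟨f, ?_⟩, hf⟩⟩
  intro u v huv
  rw [cycleGraph_adj'] at huv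
  have key : ∀ a b : Fin 6, (a - b).val = 1 → a = b + 1 := by decide
  rcases huv with h | h
  · rw [key u v h]
    exact (hs v).symm
  · rw [key v u h]
    exact hs u

/-! ### the graphs -/

variable {F : Type*} [Field F] [CharP F 2] [Fintype F] [DecidableEq F]

/-- Everything about the graph pulled back along an injection whose range contains all vertices
with first coordinate in one of the sets `A l`. -/
theorem comap_props (hc : ∀ x y : F, x ^ 3 = y ^ 3 → x = y) (A : Fin 4 → Finset F)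
    (hA : ∀ a0 a5 β δ : F, ¬(β = 0 ∧ δ = 0) → ∃ y, PC a0 a5 β δ y ∧ ∀ l, y l ∈ A l)
    {V : Type*} (f : V → F × F × F) (hf : Function.Injective f)
    (hrange : ∀ v : F × F × F, (∃ l, v.1 ∈ A l) → ∃ w, f w = v) :
    ¬ (cycleGraph 4 ⊑ (Gr F).comap f) ∧ ¬ (cycleGraph 6 ⊑ (Gr F).comap f) ∧
      ∀ u v : V, u ≠ v → ¬ ((Gr F).comap f).Adj u v →
        cycleGraph 6 ⊑ ((Gr F).comap f) ⊔ edge u v := by
  have hadj : ∀ x y : V, ((Gr F).comap f).Adj x y ↔ f x ≠ f y ∧ R (f x) (f y) := fun x y =>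
    Iff.rfl
  refine ⟨?_, ?_, ?_⟩
  · intro h
    obtain ⟨g, hg, h01, h12, h23, h30⟩ := of_cycle_four h
    rcases R_four ((hadj _ _).mp h01).2 ((hadj _ _).mp h12).2 ((hadj _ _).mp h23).2
      ((hadj _ _).mp h30).2 with e | e
    · exact absurd (hg (hf e)) (by decide)
    · exact absurd (hg (hf e)) (by decide)
  · intro h
    obtain ⟨g, hg, h01, h12, h23, h34, h45, h50⟩ := of_cycle_six h
    have hne : ∀ i j : Fin 6, i ≠ j → f (g i) ≠ f (g j) := fun i j hij e => hij (hg (hf e))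
    exact R_six hc ((hadj _ _).mp h01).2 ((hadj _ _).mp h12).2 ((hadj _ _).mp h23).2
      ((hadj _ _).mp h34).2 ((hadj _ _).mp h45).2 ((hadj _ _).mp h50).2
      (hne 0 2 (by decide)) (hne 2 4 (by decide)) (hne 4 0 (by decide)) (hne 3 5 (by decide))
  · intro u v huv hnadj
    have hne : f u ≠ f v := fun e => huv (hf e)
    have hnR : ¬ R (f u) (f v) := fun h => hnadj ((hadj u v).mpr ⟨hne, h⟩)
    have hβδ : ¬ ((f v).2.1 + (f u).2.2 + (f v).1 * (f u).1 ^ 2 = 0 ∧
        (f u).2.1 + (f v).2.2 + (f u).1 * (f v).1 ^ 2 = 0) := by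
      rintro ⟨h1, h2⟩
      exact hnR ⟨eq_of_add h1, eq_of_add h2⟩
    obtain ⟨y, hy, hyA⟩ := hA (f u).1 (f v).1 _ _ hβδ
    obtain ⟨v1, v2, v3, v4, b1, b2, b3, b4, r01, r12, r23, r34, r45, n01, n02, n03, n04, -, n12,
      n13, n14, n15, n23, n24, n25, n34, n35, n45⟩ :=
      path_of_sol hne hy.e1 hy.e2 hy.p0 hy.s0 hy.r0 hy.t0 hy.pr hy.st hy.n01 hy.n12 hy.n23
        hy.n34 hy.n45
    obtain ⟨w1, rfl⟩ := hrange v1 ⟨0, b1 ▸ hyA 0⟩
    obtain ⟨w2, rfl⟩ := hrange v2 ⟨1, b2 ▸ hyA 1⟩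
    obtain ⟨w3, rfl⟩ := hrange v3 ⟨2, b3 ▸ hyA 2⟩
    obtain ⟨w4, rfl⟩ := hrange v4 ⟨3, b4 ▸ hyA 3⟩
    have hle : (Gr F).comap f ≤ ((Gr F).comap f) ⊔ edge u v := le_sup_left
    have m01 : u ≠ w1 := fun e => n01 (congrArg f e)
    have m02 : u ≠ w2 := fun e => n02 (congrArg f e)
    have m03 : u ≠ w3 := fun e => n03 (congrArg f e)
    have m04 : u ≠ w4 := fun e => n04 (congrArg f e)
    have m12 : w1 ≠ w2 := fun e => n12 (congrArg f e)
    have m13 : w1 ≠ w3 := fun e => n13 (congrArg f e)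
    have m14 : w1 ≠ w4 := fun e => n14 (congrArg f e)
    have m15 : w1 ≠ v := fun e => n15 (congrArg f e)
    have m23 : w2 ≠ w3 := fun e => n23 (congrArg f e)
    have m24 : w2 ≠ w4 := fun e => n24 (congrArg f e)
    have m25 : w2 ≠ v := fun e => n25 (congrArg f e)
    have m34 : w3 ≠ w4 := fun e => n34 (congrArg f e)
    have m35 : w3 ≠ v := fun e => n35 (congrArg f e)
    have m45 : w4 ≠ v := fun e => n45 (congrArg f e)
    have hinj : Function.Injective (![u, w1, w2, w3, w4, v] : Fin 6 → V) := by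
      have hlt : ∀ i j : Fin 6, i < j → (![u, w1, w2, w3, w4, v] : Fin 6 → V) i
          ≠ (![u, w1, w2, w3, w4, v] : Fin 6 → V) j := by
        intro i j hij
        fin_cases i <;> fin_cases j <;>
          first
          | exact absurd hij (by decide)
          | exact m01
          | exact m02
          | exact m03
          | exact m04
          | exact huv
          | exact m12
          | exact m13
          | exact m14
          | exact m15
          | exact m23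
          | exact m24
          | exact m25
          | exact m34
          | exact m35
          | exact m45
      intro i j hij
      by_contra hne'
      rcases lt_or_gt_of_ne hne' with h | h
      · exact hlt i j h hij
      · exact hlt j i h hij.symm
    refine cycle_six_of _ hinj ?_ ?_ ?_ ?_ ?_ ?_
    · exact hle ((hadj u w1).mpr ⟨n01, r01⟩)
    · exact hle ((hadj w1 w2).mpr ⟨n12, r12⟩)
    · exact hle ((hadj w2 w3).mpr ⟨n23, r23⟩)
    · exact hle ((hadj w3 w4).mpr ⟨n34, r34⟩)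
    · exact hle ((hadj w4 v).mpr ⟨n45, r45⟩)
    · show (((Gr F).comap f) ⊔ edge u v).Adj v u
      rw [SimpleGraph.sup_adj, edge_adj]
      exact Or.inr ⟨Or.inr ⟨rfl, rfl⟩, huv.symm⟩

/-- The property of the final theorem. -/
def Good (n : ℕ) : Prop :=
  ∃ G : SimpleGraph (Fin n), ¬ (cycleGraph 6 ⊑ G) ∧
    (∀ u v : Fin n, u ≠ v → ¬ G.Adj u v → cycleGraph 6 ⊑ G ⊔ edge u v) ∧
    ¬ (cycleGraph 4 ⊑ G)

theorem good_of_field (hc : ∀ x y : F, x ^ 3 = y ^ 3 → x = y) (hq : 32 ≤ Fintype.card F)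
    (hbig : Fintype.card F ^ 4 * 256 * (256 ^ 4 - 1) ^ (Fintype.card F / 8)
      < (256 ^ 4) ^ (Fintype.card F / 8)) (n : ℕ) (h1 : Fintype.card F ^ 3 ≤ 64 * n)
    (h2 : n ≤ Fintype.card F ^ 3) : Good n := by
  classical
  obtain ⟨A, hA1, hA2⟩ := exists_universal hc hq hbig
  -- the universal vertex set
  let S₀ : Finset (F × F × F) := Finset.univ.filter (fun v => ∃ l, v.1 ∈ A l)
  have hS₀ : S₀.card * 64 ≤ Fintype.card F ^ 3 := by
    have hsub : S₀ ⊆ (Finset.univ : Finset (Fin 4)).biUnion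
        (fun l => (A l) ×ˢ (Finset.univ : Finset (F × F))) := by
      intro v hv
      obtain ⟨l, hl⟩ := (Finset.mem_filter.mp hv).2
      rw [Finset.mem_biUnion]
      exact ⟨l, Finset.mem_univ _, Finset.mem_product.mpr ⟨hl, Finset.mem_univ _⟩⟩
    have hle : S₀.card ≤ (∑ l, (A l).card) * Fintype.card F ^ 2 := by
      calc S₀.card ≤ _ := Finset.card_le_card hsub
        _ ≤ ∑ l, ((A l) ×ˢ (Finset.univ : Finset (F × F))).card := Finset.card_biUnion_le
        _ = _ := by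
          rw [Finset.sum_mul]
          refine Finset.sum_congr rfl fun l _ => ?_
          rw [Finset.card_product, Finset.card_univ, Fintype.card_prod]
          ring
    have h3 : 256 * (∑ l, (A l).card) * Fintype.card F ^ 2 ≤ 4 * Fintype.card F *
        Fintype.card F ^ 2 := Nat.mul_le_mul_right _ hA1
    have h4 : 4 * Fintype.card F * Fintype.card F ^ 2 = 4 * Fintype.card F ^ 3 := by ring
    have h5 : 256 * (∑ l, (A l).card) * Fintype.card F ^ 2
        = 256 * ((∑ l, (A l).card) * Fintype.card F ^ 2) := by ring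
    omega
  have hS₀n : S₀.card ≤ n := by omega
  have huniv : n ≤ (Finset.univ : Finset (F × F × F)).card := by
    rw [Finset.card_univ, Fintype.card_prod, Fintype.card_prod]
    refine h2.trans (le_of_eq (by ring))
  obtain ⟨S, hS1, -, hS3⟩ := Finset.exists_subsuperset_card_eq (Finset.subset_univ S₀) hS₀n huniv
  let e : S ≃ Fin n := S.equivFinOfCardEq hS3
  let f : Fin n → F × F × F := fun i => (e.symm i).1
  have hf : Function.Injective f := fun i j h => e.symm.injective (Subtype.ext h)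
  have hrange : ∀ v : F × F × F, (∃ l, v.1 ∈ A l) → ∃ w, f w = v := by
    intro v hv
    have hvS : v ∈ S := hS1 (Finset.mem_filter.mpr ⟨Finset.mem_univ _, hv⟩)
    exact ⟨e ⟨v, hvS⟩, by simp [f]⟩
  obtain ⟨p1, p2, p3⟩ := comap_props hc A hA2 f hf hrange
  exact ⟨(Gr F).comap f, p2, p3, p1⟩

/-! ### numerical side -/

theorem eventually_big : ∃ T₀ : ℕ, ∀ q : ℕ, T₀ ≤ q →
    q ^ 4 * 256 * (256 ^ 4 - 1) ^ (q / 8) < (256 ^ 4) ^ (q / 8) := by
  have h := tendsto_pow_const_mul_const_pow_of_abs_lt_one 4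
    (r := (((256 : ℝ) ^ 4 - 1) / 256 ^ 4)) (by
      rw [abs_of_nonneg (by norm_num)]
      norm_num)
  have h2 := (h.eventually (gt_mem_nhds (show (0 : ℝ) < 1 / (16 ^ 4 * 256) by norm_num)))
  rw [Filter.eventually_atTop] at h2
  obtain ⟨N, hN⟩ := h2
  refine ⟨8 * N + 8, fun q hq => ?_⟩
  have hT : N ≤ q / 8 := by omega
  have hT1 : 1 ≤ q / 8 := by omega
  have hqT : q ≤ 16 * (q / 8) := by omega
  have h3 := hN (q / 8) hT
  generalize q / 8 = T at *
  rw [div_pow] at h3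
  have hpos : (0 : ℝ) < (256 ^ 4) ^ T := by positivity
  have h4 : (q : ℝ) ^ 4 * 256 * (256 ^ 4 - 1) ^ T < (256 ^ 4) ^ T := by
    have hq4 : (q : ℝ) ^ 4 ≤ (16 * T) ^ 4 := by
      have : (q : ℝ) ≤ 16 * T := by exact_mod_cast hqT
      exact pow_le_pow_left₀ (by positivity) this 4
    calc (q : ℝ) ^ 4 * 256 * (256 ^ 4 - 1) ^ T ≤ (16 * T) ^ 4 * 256 * (256 ^ 4 - 1) ^ T := by
          gcongr
      _ = ((T : ℝ) ^ 4 * ((256 ^ 4 - 1) ^ T / (256 ^ 4) ^ T)) * (16 ^ 4 * 256) *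
            (256 ^ 4) ^ T := by
          field_simp
      _ < (1 / (16 ^ 4 * 256)) * (16 ^ 4 * 256) * (256 ^ 4) ^ T := by
          gcongr
      _ = _ := by norm_num
  have h5 : ((q ^ 4 * 256 * (256 ^ 4 - 1) ^ T : ℕ) : ℝ) < (((256 ^ 4) ^ T : ℕ) : ℝ) := by
    push_cast
    convert h4 using 2 <;> norm_num
  exact_mod_cast h5

theorem cube_inj_of_card (hm : Fintype.card F % 3 = 2) : ∀ x y : F, x ^ 3 = y ^ 3 → x = y := by
  intro x y h
  by_cases hy : y = 0
  · rw [hy, zero_pow (by norm_num)] at h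
    rw [hy]
    exact pow_eq_zero_iff (by norm_num) |>.mp h
  · have hz : (x / y) ^ 3 = 1 := by rw [div_pow, h, div_self (pow_ne_zero 3 hy)]
    have hz0 : x / y ≠ 0 := by
      intro h0
      rw [h0] at hz
      norm_num at hz
    have hF := FiniteField.pow_card_sub_one_eq_one (x / y) hz0
    obtain ⟨k, hk⟩ : ∃ k, Fintype.card F - 1 = 3 * k + 1 := ⟨(Fintype.card F - 2) / 3, by omega⟩
    rw [hk, pow_add, pow_mul, hz, one_pow, one_mul, pow_one] at hF
    exact (div_eq_one_iff_eq hy).mp hF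

theorem good_of_exponent (j : ℕ) (hj : 32 ≤ 2 ^ (2 * j + 1))
    (hbig : (2 ^ (2 * j + 1)) ^ 4 * 256 * (256 ^ 4 - 1) ^ ((2 ^ (2 * j + 1)) / 8)
      < (256 ^ 4) ^ ((2 ^ (2 * j + 1)) / 8)) (n : ℕ)
    (h1 : 8 * 64 ^ j ≤ 64 * n) (h2 : n ≤ 8 * 64 ^ j) : Good n := by
  classical
  have hfin : Finite (GaloisField 2 (2 * j + 1)) := inferInstance
  let _ : Fintype (GaloisField 2 (2 * j + 1)) := Fintype.ofFinite _
  have hcard : Fintype.card (GaloisField 2 (2 * j + 1)) = 2 ^ (2 * j + 1) := by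
    rw [← Nat.card_eq_fintype_card]
    exact GaloisField.card 2 (2 * j + 1) (by omega)
  have hmod : Fintype.card (GaloisField 2 (2 * j + 1)) % 3 = 2 := by
    rw [hcard, pow_succ, pow_mul]
    norm_num [Nat.mul_mod, Nat.pow_mod]
  have hcube : (2 ^ (2 * j + 1)) ^ 3 = 8 * 64 ^ j := by
    rw [← pow_mul, show (2 * j + 1) * 3 = 3 + 6 * j by ring, pow_add, pow_mul]
    norm_num
  have hc := cube_inj_of_card (F := GaloisField 2 (2 * j + 1)) hmod
  refine good_of_field hc ?_ ?_ n ?_ ?_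
  · rw [hcard]; exact hj
  · rw [hcard]; exact hbig
  · rw [hcard, hcube]; exact h1
  · rw [hcard, hcube]; exact h2

theorem good_eventually : ∃ n₀ : ℕ, ∀ n, n₀ ≤ n → Good n := by
  obtain ⟨T₀, hT₀⟩ := eventually_big
  refine ⟨8 * 64 ^ (T₀ + 3) + 1, fun n hn => ?_⟩
  -- least `j` with `n ≤ 8 * 64 ^ j`
  have hex : ∃ j, n ≤ 8 * 64 ^ j := by
    refine ⟨n, ?_⟩
    have := Nat.lt_pow_self (n := n) (a := 64) (by norm_num)
    omega
  classical
  let j := Nat.find hex
  have hj1 : n ≤ 8 * 64 ^ j := Nat.find_spec hex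
  have hj2 : T₀ + 3 < j := by
    by_contra hcon
    push Not at hcon
    have := Nat.pow_le_pow_right (show 0 < 64 by norm_num) hcon
    omega
  have hj3 : ¬ n ≤ 8 * 64 ^ (j - 1) := Nat.find_min hex (by
    show j - 1 < j
    omega)
  have hpow : 64 ^ j = 64 * 64 ^ (j - 1) := by
    conv_lhs => rw [show j = (j - 1) + 1 by omega]
    rw [pow_succ]; ring
  have hq : 2 * j + 1 ≤ 2 ^ (2 * j + 1) := (Nat.lt_pow_self (by norm_num)).le
  refine good_of_exponent j ?_ ?_ n ?_ hj1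
  · calc 32 = 2 ^ 5 := by norm_num
      _ ≤ 2 ^ (2 * j + 1) := Nat.pow_le_pow_right (by norm_num) (by omega)
  · exact hT₀ _ (by omega)
  · omega

end Pool.Agent.R866.SatC6
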