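import Pool.Agent.R866.SatC6Count

/-!
Assembling: a universal set of first coordinates, and the graphs.
-/

namespace Pool.Agent.R866.SatC6

open Finset

variable {F : Type*} [Field F] [CharP F 2] [Fintype F] [DecidableEq F]

theorem card_S2 (hc : ∀ x y : F, x ^ 3 = y ^ 3 → x = y) (a0 a5 : F) {β δ : F}
    (hne : ¬(β = 0 ∧ δ = 0)) :
    (Fintype.card F - 2) * (Fintype.card F - 2) ≤ (S2 a0 a5 β δ).card + 8 * Fintype.card F := by
  have h0 : S0 β δ ⊆ (((S0 β δ).filter (fun x => x.2.1 = x.2.2.2)) ∪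
      ((S0 β δ).filter (fun x => x.1 = x.2.2.1))) ∪ S1 β δ := by
    intro x hx
    simp only [Finset.mem_union, Finset.mem_filter, S1]
    by_cases h1 : x.2.1 = x.2.2.2
    · exact Or.inl (Or.inl ⟨hx, h1⟩)
    · by_cases h2 : x.1 = x.2.2.1
      · exact Or.inl (Or.inr ⟨hx, h2⟩)
      · exact Or.inr ⟨hx, h1, h2⟩
  have h1 : S1 β δ ⊆ ((((((S1 β δ).filter (fun x => a0 = a5 + x.2.1 + x.2.2.2)) ∪
      ((S1 β δ).filter (fun x => a0 + x.2.2.1 = a5))) ∪
      ((S1 β δ).filter (fun x => a5 + x.2.2.2 = a0 + x.2.2.1))) ∪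
      ((S1 β δ).filter (fun x => a5 + x.2.1 + x.2.2.2 = a0 + x.1))) ∪
      ((S1 β δ).filter (fun x => a0 + x.1 = a5 + x.2.2.2))) ∪ S2 a0 a5 β δ := by
    intro x hx
    simp only [Finset.mem_union, Finset.mem_filter, S2]
    by_cases k1 : a0 = a5 + x.2.1 + x.2.2.2
    · exact Or.inl (Or.inl (Or.inl (Or.inl (Or.inl ⟨hx, k1⟩))))
    · by_cases k2 : a0 + x.2.2.1 = a5
      · exact Or.inl (Or.inl (Or.inl (Or.inl (Or.inr ⟨hx, k2⟩))))
      · by_cases k3 : a5 + x.2.2.2 = a0 + x.2.2.1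
        · exact Or.inl (Or.inl (Or.inl (Or.inr ⟨hx, k3⟩)))
        · by_cases k4 : a5 + x.2.1 + x.2.2.2 = a0 + x.1
          · exact Or.inl (Or.inl (Or.inr ⟨hx, k4⟩))
          · by_cases k5 : a0 + x.1 = a5 + x.2.2.2
            · exact Or.inl (Or.inr ⟨hx, k5⟩)
            · exact Or.inr ⟨hx, k1, k2, k3, k4, k5⟩
  have c0 := card_S0 hc β δ
  have c1 := card_B1 hc hne
  have c2 := card_B2 hc hne
  have c3 := card_B3 hc a0 a5 β δ
  have c4 := card_B4 hc a0 a5 β δ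
  have c5 := card_B5 hc a0 a5 β δ
  have c6 := card_B6 hc a0 a5 β δ
  have c7 := card_B7 hc a0 a5 β δ
  have d0 := (Finset.card_le_card h0).trans (Finset.card_union_le _ _)
  have d1 := Finset.card_union_le ((S0 β δ).filter (fun x => x.2.1 = x.2.2.2))
    ((S0 β δ).filter (fun x => x.1 = x.2.2.1))
  have d2 := (Finset.card_le_card h1).trans (Finset.card_union_le _ _)
  have d3 := Finset.card_union_le (((((S1 β δ).filter (fun x => a0 = a5 + x.2.1 + x.2.2.2)) ∪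
      ((S1 β δ).filter (fun x => a0 + x.2.2.1 = a5))) ∪
      ((S1 β δ).filter (fun x => a5 + x.2.2.2 = a0 + x.2.2.1))) ∪
      ((S1 β δ).filter (fun x => a5 + x.2.1 + x.2.2.2 = a0 + x.1)))
      ((S1 β δ).filter (fun x => a0 + x.1 = a5 + x.2.2.2))
  have d4 := Finset.card_union_le ((((S1 β δ).filter (fun x => a0 = a5 + x.2.1 + x.2.2.2)) ∪
      ((S1 β δ).filter (fun x => a0 + x.2.2.1 = a5))) ∪
      ((S1 β δ).filter (fun x => a5 + x.2.2.2 = a0 + x.2.2.1)))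
      ((S1 β δ).filter (fun x => a5 + x.2.1 + x.2.2.2 = a0 + x.1))
  have d5 := Finset.card_union_le (((S1 β δ).filter (fun x => a0 = a5 + x.2.1 + x.2.2.2)) ∪
      ((S1 β δ).filter (fun x => a0 + x.2.2.1 = a5)))
      ((S1 β δ).filter (fun x => a5 + x.2.2.2 = a0 + x.2.2.1))
  have d6 := Finset.card_union_le ((S1 β δ).filter (fun x => a0 = a5 + x.2.1 + x.2.2.2))
      ((S1 β δ).filter (fun x => a0 + x.2.2.1 = a5))
  omega

/-- The condition on the four inner first coordinates of a five-edge path. -/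
structure PC (a0 a5 β δ : F) (y : Fin 4 → F) : Prop where
  e1 : (y 0 + y 2) * (a0 + y 1) ^ 2 + (y 2 + a5) * (a0 + y 3) ^ 2 = β
  e2 : (a0 + y 1) * (y 0 + y 2) ^ 2 + (a0 + y 3) * (y 2 + a5) ^ 2 = δ
  p0 : a0 ≠ y 1
  s0 : y 0 ≠ y 2
  r0 : a0 ≠ y 3
  t0 : y 2 ≠ a5
  pr : y 1 ≠ y 3
  st : y 0 ≠ a5
  n01 : a0 ≠ y 0
  n12 : y 0 ≠ y 1
  n23 : y 1 ≠ y 2
  n34 : y 2 ≠ y 3
  n45 : y 3 ≠ a5

/-- From `(p, s, r, t)` to the four first coordinates. -/
def toY (a0 a5 : F) (x : F × F × F × F) : Fin 4 → F :=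
  ![a5 + x.2.1 + x.2.2.2, a0 + x.1, a5 + x.2.2.2, a0 + x.2.2.1]

omit [CharP F 2] [Fintype F] [DecidableEq F] in
theorem toY_inj (a0 a5 : F) : Function.Injective (toY a0 a5) := by
  intro x y h
  have h0 : a5 + x.2.1 + x.2.2.2 = a5 + y.2.1 + y.2.2.2 := congrFun h 0
  have h1 : a0 + x.1 = a0 + y.1 := congrFun h 1
  have h2 : a5 + x.2.2.2 = a5 + y.2.2.2 := congrFun h 2
  have h3 : a0 + x.2.2.1 = a0 + y.2.2.1 := congrFun h 3
  exact Prod.ext (add_left_cancel h1) (Prod.ext (by linear_combination h0 - h2)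
    (Prod.ext (add_left_cancel h3) (add_left_cancel h2)))

theorem PC_toY {a0 a5 β δ : F} {x : F × F × F × F} (hx : x ∈ S2 a0 a5 β δ) :
    PC a0 a5 β δ (toY a0 a5 x) := by
  obtain ⟨hx1, g1, g2, g3, g4, g5⟩ := Finset.mem_filter.mp hx
  obtain ⟨hx2, g6, g7⟩ := Finset.mem_filter.mp hx1
  obtain ⟨⟨e1, e2⟩, hp, hs, hr, ht⟩ := mem_S0.mp hx2
  have z : (2 : F) = 0 := two_zero
  refine ⟨?_, ?_, ?_, ?_, ?_, ?_, ?_, ?_, ?_, ?_, ?_, ?_, ?_⟩
  · show (a5 + x.2.1 + x.2.2.2 + (a5 + x.2.2.2)) * (a0 + (a0 + x.1)) ^ 2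
      + (a5 + x.2.2.2 + a5) * (a0 + (a0 + x.2.2.1)) ^ 2 = β
    have k1 : a5 + x.2.1 + x.2.2.2 + (a5 + x.2.2.2) = x.2.1 := by
      linear_combination (a5 + x.2.2.2) * z
    have k2 : a0 + (a0 + x.1) = x.1 := by linear_combination a0 * z
    have k3 : a5 + x.2.2.2 + a5 = x.2.2.2 := by linear_combination a5 * z
    have k4 : a0 + (a0 + x.2.2.1) = x.2.2.1 := by linear_combination a0 * z
    rw [k1, k2, k3, k4, e1]
  · show (a0 + (a0 + x.1)) * (a5 + x.2.1 + x.2.2.2 + (a5 + x.2.2.2)) ^ 2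
      + (a0 + (a0 + x.2.2.1)) * (a5 + x.2.2.2 + a5) ^ 2 = δ
    have k1 : a5 + x.2.1 + x.2.2.2 + (a5 + x.2.2.2) = x.2.1 := by
      linear_combination (a5 + x.2.2.2) * z
    have k2 : a0 + (a0 + x.1) = x.1 := by linear_combination a0 * z
    have k3 : a5 + x.2.2.2 + a5 = x.2.2.2 := by linear_combination a5 * z
    have k4 : a0 + (a0 + x.2.2.1) = x.2.2.1 := by linear_combination a0 * z
    rw [k1, k2, k3, k4, e2]
  · intro h
    have h' : a0 = a0 + x.1 := h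
    exact hp (by linear_combination -h')
  · intro h
    have h' : a5 + x.2.1 + x.2.2.2 = a5 + x.2.2.2 := h
    exact hs (by linear_combination h')
  · intro h
    have h' : a0 = a0 + x.2.2.1 := h
    exact hr (by linear_combination -h')
  · intro h
    have h' : a5 + x.2.2.2 = a5 := h
    exact ht (by linear_combination h')
  · intro h
    have h' : a0 + x.1 = a0 + x.2.2.1 := h
    exact g7 (by linear_combination h')
  · intro h
    have h' : a5 + x.2.1 + x.2.2.2 = a5 := h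
    exact g6 (by linear_combination h' - x.2.2.2 * z)
  · exact g1
  · exact g4
  · exact g5
  · exact g3
  · exact g2

theorem card_fiber (hc : ∀ x y : F, x ^ 3 = y ^ 3 → x = y) (a0 a5 β δ : F) (l : Fin 4) (z : F) :
    (((S2 a0 a5 β δ).image (toY a0 a5)).filter (fun y => y l = z)).card ≤ Fintype.card F := by
  have h1 : ((S2 a0 a5 β δ).image (toY a0 a5)).filter (fun y => y l = z)
      ⊆ ((S2 a0 a5 β δ).filter (fun x => toY a0 a5 x l = z)).image (toY a0 a5) := by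
    intro y hy
    obtain ⟨hy1, hy2⟩ := Finset.mem_filter.mp hy
    obtain ⟨x, hx, rfl⟩ := Finset.mem_image.mp hy1
    exact Finset.mem_image_of_mem _ (Finset.mem_filter.mpr ⟨hx, hy2⟩)
  refine (Finset.card_le_card h1).trans (Finset.card_image_le.trans ?_)
  have hS1 : ∀ x, x ∈ (S2 a0 a5 β δ).filter (fun x => toY a0 a5 x l = z) →
      x ∈ S1 β δ ∧ toY a0 a5 x l = z := by
    intro x hx
    obtain ⟨hx1, hx2⟩ := Finset.mem_filter.mp hx
    exact ⟨(Finset.mem_filter.mp hx1).1, hx2⟩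
  have hl : l = 0 ∨ l = 1 ∨ l = 2 ∨ l = 3 := by omega
  rcases hl with rfl | rfl | rfl | rfl
  · refine card_le_of_inj (fun x => x.2.1) ?_
    intro x hx y hy h
    obtain ⟨hx1, hx2⟩ := hS1 x hx
    obtain ⟨hy1, hy2⟩ := hS1 y hy
    have hx3 : a5 + x.2.1 + x.2.2.2 = z := hx2
    have hy3 : a5 + y.2.1 + y.2.2.2 = z := hy2
    have h' : x.2.1 = y.2.1 := h
    exact S1_inj1 hc hx1 hy1 h' (by linear_combination hx3 - hy3 - h')
  · refine card_le_of_inj (fun x => x.2.2.1) ?_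
    intro x hx y hy h
    obtain ⟨hx1, hx2⟩ := hS1 x hx
    obtain ⟨hy1, hy2⟩ := hS1 y hy
    have hx3 : a0 + x.1 = z := hx2
    have hy3 : a0 + y.1 = z := hy2
    exact S1_inj2 hc hx1 hy1 (by linear_combination hx3 - hy3) h
  · refine card_le_of_inj (fun x => x.2.1) ?_
    intro x hx y hy h
    obtain ⟨hx1, hx2⟩ := hS1 x hx
    obtain ⟨hy1, hy2⟩ := hS1 y hy
    have hx3 : a5 + x.2.2.2 = z := hx2
    have hy3 : a5 + y.2.2.2 = z := hy2
    exact S1_inj1 hc hx1 hy1 h (by linear_combination hx3 - hy3)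
  · refine card_le_of_inj (fun x => x.1) ?_
    intro x hx y hy h
    obtain ⟨hx1, hx2⟩ := hS1 x hx
    obtain ⟨hy1, hy2⟩ := hS1 y hy
    have hx3 : a0 + x.2.2.1 = z := hx2
    have hy3 : a0 + y.2.2.1 = z := hy2
    exact S1_inj2 hc hx1 hy1 h (by linear_combination hx3 - hy3)

theorem exists_family (hc : ∀ x y : F, x ^ 3 = y ^ 3 → x = y) (hq : 32 ≤ Fintype.card F)
    (a0 a5 : F) {β δ : F} (hne : ¬(β = 0 ∧ δ = 0)) :
    ∃ Y : Finset (Fin 4 → F), (∀ x ∈ Y, ∀ y ∈ Y, x ≠ y → Dj x y) ∧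
      (∀ y ∈ Y, PC a0 a5 β δ y) ∧ Fintype.card F / 8 ≤ Y.card := by
  obtain ⟨Y, hYX, hY, hcard⟩ := exists_disjoint_family ((S2 a0 a5 β δ).image (toY a0 a5))
    (Fintype.card F) (card_fiber hc a0 a5 β δ)
  refine ⟨Y, hY, ?_, ?_⟩
  · intro y hy
    obtain ⟨x, hx, rfl⟩ := Finset.mem_image.mp (hYX hy)
    exact PC_toY hx
  · rw [Finset.card_image_of_injective _ (toY_inj a0 a5)] at hcard
    have h2 := card_S2 hc a0 a5 hne
    obtain ⟨k, hk⟩ : ∃ k, Fintype.card F = k + 32 := ⟨Fintype.card F - 32, by omega⟩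
    rw [hk] at hcard h2 ⊢
    have h3 : (k + 32 - 2) = k + 30 := by omega
    rw [h3] at h2
    by_contra hcon
    have hY8 : 8 * Y.card + 1 ≤ k + 32 := by omega
    have h4 : 4 * (k + 32) * Y.card * 2 ≤ (k + 32) * (k + 32) := by
      have : 8 * Y.card ≤ k + 32 := by omega
      calc 4 * (k + 32) * Y.card * 2 = (k + 32) * (8 * Y.card) := by ring
        _ ≤ (k + 32) * (k + 32) := Nat.mul_le_mul_left _ this
    nlinarith

/-- A sparse universal system of first coordinates. -/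
theorem exists_universal (hc : ∀ x y : F, x ^ 3 = y ^ 3 → x = y) (hq : 32 ≤ Fintype.card F)
    (hbig : Fintype.card F ^ 4 * 256 * (256 ^ 4 - 1) ^ (Fintype.card F / 8)
      < (256 ^ 4) ^ (Fintype.card F / 8)) :
    ∃ A : Fin 4 → Finset F, 256 * ∑ l, (A l).card ≤ 4 * Fintype.card F ∧
      ∀ a0 a5 β δ : F, ¬(β = 0 ∧ δ = 0) → ∃ y, PC a0 a5 β δ y ∧ ∀ l, y l ∈ A l := by
  classical
  let J := {j : F × F × F × F // ¬(j.2.2.1 = 0 ∧ j.2.2.2 = 0)}
  have hfam : ∀ j : J, ∃ Y : Finset (Fin 4 → F), (∀ x ∈ Y, ∀ y ∈ Y, x ≠ y → Dj x y) ∧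
      (∀ y ∈ Y, PC j.1.1 j.1.2.1 j.1.2.2.1 j.1.2.2.2 y) ∧ Fintype.card F / 8 ≤ Y.card :=
    fun j => exists_family hc hq j.1.1 j.1.2.1 j.2
  choose Y hYd hYP hYc using hfam
  have hJ : Fintype.card J ≤ Fintype.card F ^ 4 := by
    refine (Fintype.card_subtype_le _).trans ?_
    rw [Fintype.card_prod, Fintype.card_prod, Fintype.card_prod]
    exact le_of_eq (by ring)
  obtain ⟨c, hcY⟩ := exists_coloring (M := 256) (by norm_num) (Fintype.card F / 8) Y hYd hYc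
    (lt_of_le_of_lt (Nat.mul_le_mul_right _ (Nat.mul_le_mul_right _ hJ)) hbig)
  obtain ⟨k, hk⟩ := exists_small_color (M := 256) (by norm_num) c
  refine ⟨fun l => Finset.univ.filter (fun z => c l z = k), hk, ?_⟩
  intro a0 a5 β δ hne
  obtain ⟨y, hy, hyc⟩ := hcY ⟨(a0, a5, β, δ), hne⟩ k
  exact ⟨y, hYP _ y hy, fun l => Finset.mem_filter.mpr ⟨Finset.mem_univ _, hyc l⟩⟩

end Pool.Agent.R866.SatC6
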